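import Pool.Agent.Helper42.QD.Stmts

namespace Pool.Agent.Helper77.QD

open Pool.Agent.Helper42.QD Pool.Agent.Helper42.QD.VD

theorem st_C2A (h1 : ST_EXB) (h2 : ST_F4) : ST_C2A := by
  intro D k _ _ _ c R h f oh hh hsg hf hfix hoh
  have hT := c.T_ne
  have hPT : c.P 1 c.T := Or.inr c.v_T.ge
  obtain ⟨x, B, hx, hB, hty⟩ := h1 D k c R h f oh (by omega) hf hfix hoh (c.T ^ (-(h : ℤ)))
    (T_zpow_ne _) (v_T_zpow _)
  obtain ⟨hx0, hvx⟩ := v_congr (T_zpow_ne (c := c) (-(h : ℤ)))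
    (by rw [v_T_zpow]; exact P_mono (by omega) hx)
  rw [v_T_zpow] at hvx
  have hind : IsS c (ind c x 0) := IsS_ind hx0 (by rw [hvx]; omega)
  obtain ⟨g, hg⟩ : ∃ g : Sp c, g.1 = ind c x 0 := ⟨⟨ind c x 0, hind⟩, rfl⟩
  have hg0 : g ≠ 0 := by
    intro h0
    have h3 : g.1 x = 0 := by rw [h0]; rfl
    rw [hg, ind_apply_of (by rw [sub_self]; exact c.P_zero 0)] at h3
    exact one_ne_zero h3
  have hF := h2 D k c R h oh x B g hh hoh hx0 hvx hB hg (hty g hg) c.T hPT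
  refine ⟨x, B, g, hx, hB, hg0, hty g hg, ?_, ?_⟩
  · obtain ⟨a, ha⟩ : ∃ a, a = c.T ^ (h : ℤ) := ⟨_, rfl⟩
    have ha0 : a ≠ 0 := by rw [ha]; exact T_zpow_ne _
    have hva : c.v a = h := by rw [ha]; exact v_T_zpow _
    have haP : c.P h a := Or.inr hva.ge
    have haT : a * c.T = c.T * a := by
      rw [ha, ← zpow_add_one₀ hT, ← zpow_one_add₀ hT, add_comm]
    rw [← ha]
    rw [zpow_neg, ← ha] at hx
    obtain ⟨u, hu⟩ : ∃ u, u = a * (x - a⁻¹) := ⟨_, rfl⟩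
    have huP : c.P 1 u := by rw [hu]; exact P_mul' haP hx (by omega)
    obtain ⟨hu1, hu2⟩ := one_add huP
    have hxu : x = a⁻¹ * (1 + u) := by
      rw [hu, mul_sub, mul_inv_cancel₀ ha0, add_sub_cancel, inv_mul_cancel_left₀ ha0]
    obtain ⟨w, hw⟩ : ∃ w, w = a * (c.T * B) * a⁻¹ := ⟨_, rfl⟩
    have hwP : c.P (1 - h) w := by
      rw [hw]
      exact P_conj ha0 (P_mul' hPT hB (by omega))
    have h3 : x⁻¹ * c.T * B * x = (1 + u)⁻¹ * (w * (1 + u)) := by
      rw [hw, hxu, mul_inv_rev, inv_inv]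
      simp only [mul_assoc]
    have h4 : (1 + u)⁻¹ * (w * (1 + u)) - w = (1 + u)⁻¹ * (w * u - u * w) := by
      have h5 : w = (1 + u)⁻¹ * ((1 + u) * w) := by rw [inv_mul_cancel_left₀ hu1]
      nth_rewrite 2 [h5]
      rw [← mul_sub]
      congr 1
      noncomm_ring
    have h6 : c.P (2 - h) (w - B * c.T) := by
      have h7 : c.P (2 - h) ((1 + u)⁻¹ * (w * (1 + u)) - w) := by
        rw [h4]
        have h8 : c.P 0 (1 + u)⁻¹ := Or.inr (by rw [v_inv hu1, hu2]; simp)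
        exact P_mul' h8 (P_sub (P_mul' hwP huP (by omega : (2 - h : ℤ) ≤ (1 - h) + 1))
          (P_mul' huP hwP (by omega))) (by omega)
      rw [h3] at hF
      have h9 := P_sub hF h7
      have h10 : (1 + u)⁻¹ * (w * (1 + u)) - B * c.T - ((1 + u)⁻¹ * (w * (1 + u)) - w)
          = w - B * c.T := by abel
      rwa [h10] at h9
    -- multiply on the left by `T ^ (h - 1)`
    obtain ⟨b, hb⟩ : ∃ b, b = a * B := ⟨_, rfl⟩
    have hbP : c.P 0 b := by rw [hb]; exact P_mul' haP hB (by omega)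
    have h11 : c.P 1 (a * b * a⁻¹ - c.T⁻¹ * b * c.T) := by
      have h12 : a * b * a⁻¹ - c.T⁻¹ * b * c.T = c.T⁻¹ * (a * (w - B * c.T)) := by
        rw [hw, hb]
        have h13 : c.T⁻¹ * (a * (a * (c.T * B) * a⁻¹ - B * c.T))
            = c.T⁻¹ * (a * (a * c.T) * B * a⁻¹) - c.T⁻¹ * (a * B * c.T) := by
          simp only [mul_sub, mul_assoc]
        rw [h13, haT, show a * (c.T * a) = c.T * (a * a) by rw [← mul_assoc, haT, mul_assoc]]
        simp only [mul_assoc]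
        rw [inv_mul_cancel_left₀ hT]
      rw [h12]
      have h14 : c.P (-1) c.T⁻¹ := Or.inr (by rw [v_inv hT, c.v_T])
      exact P_mul' h14 (P_mul' haP h6 (by omega : (2 : ℤ) ≤ h + (2 - h))) (by omega)
    have h15 : c.r (a * b * a⁻¹) = c.r b := by
      rw [ha, r_T_zpow _ hbP, zpow_natCast, hsg]
      rfl
    have h16 : c.r (c.T⁻¹ * b * c.T) = (c.sg⁻¹) (c.r b) := by
      have h17 := r_T_zpow (c := c) (-1) hbP
      rw [zpow_neg_one, zpow_neg_one, inv_inv] at h17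
      exact h17
    have h18 : c.P 0 (a * b * a⁻¹) := P_conj ha0 hbP
    have h19 : c.P 0 (c.T⁻¹ * b * c.T) := P_conj' hT hbP
    have h20 := (r_congr h18 h19).2 h11
    rw [h15, h16] at h20
    rw [← hb]
    have h21 : c.sg ((c.sg⁻¹) (c.r b)) = c.r b := RingEquiv.apply_symm_apply c.sg (c.r b)
    rw [← h20] at h21
    exact h21
  · obtain ⟨a, ha⟩ : ∃ a, a = c.T ^ (h : ℤ) := ⟨_, rfl⟩
    have hva : c.v a = h := by rw [ha]; exact v_T_zpow _
    have haP : c.P h a := Or.inr hva.ge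
    have haT : a * c.T = c.T * a := by
      rw [ha, ← zpow_add_one₀ hT, ← zpow_one_add₀ hT, add_comm]
    rw [← ha]
    have hbP : c.P 0 (a * oh) := P_mul' haP hoh.1 (by omega)
    have h3 := hoh.2.2 c.T hT
    have h4 : c.P 1 (c.T * (a * oh) * c.T⁻¹ - a * oh) := by
      have h5 : c.T * (a * oh) * c.T⁻¹ - a * oh = a * (c.T * oh * c.T⁻¹ - oh) := by
        rw [mul_sub, ← mul_assoc c.T a oh, ← haT]
        simp only [mul_assoc]
      rw [h5]
      exact P_mul' haP h3 (by omega)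
    have h6 := (r_congr (P_conj hT hbP) hbP).2 h4
    rw [c.r_T _ hbP] at h6
    exact h6

end Pool.Agent.Helper77.QD
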